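import Pool.Agent.Helper13.FF.UPc

/-!
# Project FF: every element of the maximal pro-`ℓ` extension lies in a level
-/

set_option autoImplicit false
set_option linter.unusedSectionVars false

namespace Pool.Agent.FFS

open VC IntermediateField Polynomial Pool.Agent.SC
open Pool.Agent.L (L0 MM)
open Pool.Agent.LN (Geo Act)
open Pool.Agent.M (Moves OverPl inL0)
open Pool.Agent.ML (BPl)
open Pool.Agent.TOW (Au AuE)
open Pool.Agent.PRL (IsPL)

noncomputable section

section lv

variable {k K0 E U' U : Type} [Field k] [CharZero k] [Field K0] [Field E] [Field U']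
  [Field U] [Algebra k K0] [Algebra k E] [Algebra E U'] [Algebra E U] [Algebra U' U]
  [IsScalarTower E U' U]
  [Algebra K0 U'] [Algebra K0 U] [IsScalarTower K0 U' U] [Algebra k U] [IsScalarTower k E U]
  [IsScalarTower k K0 U] {ℓ : ℕ} {h : K0} {r' : U'}

theorem pow_fix97' {R : Type} [Field R] {σ : R ≃+* R} {z : R}
    (h : σ z = z) (n : ℕ) : (σ ^ n) z = z := by
  induction n with
  | zero => rfl
  | succ n ih =>
    rw [pow_succ]
    change (σ ^ n) (σ z) = z
    rw [h, ih]

theorem auE_pow97 {σ : U ≃+* U} (h : AuE E K0 σ) (n : ℕ) : AuE E K0 (σ ^ n) :=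
  ⟨fun x => pow_fix97' (h.fixK x) n, fun e => pow_fix97' (h.fixE e) n⟩

/-- every element of `U'` lies in a level whose group over `L0` is an `ℓ`-group -/
theorem exists_lvl97 (hℓ : ℓ.Prime) (P : IsPLF E K0 U ℓ r')
    (G : Geo k K0 E U ℓ h (algebraMap U' U r')) (z' : U') :
    ∃ N : IntermediateField E U, TW.Lvl E K0 N ∧ MM E K0 (algebraMap U' U r') ≤ N ∧
      IsPL E K0 ℓ N ∧ algebraMap U' U z' ∈ N := by
  classical
  have hcl : IsAlgClosed E := G.clE
  have hn : Normal K0 U := G.normal
  have hr : r' ≠ 0 := hr_of G hℓ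
  have hr0 : algebraMap U' U r' ≠ 0 := (map_ne_zero_iff _ (algebraMap U' U).injective).2 hr
  have hint : ∀ z : U, IsIntegral K0 z := hn.isIntegral
  set z := algebraMap U' U z' with hz
  set r := algebraMap U' U r' with hrr
  set A : Set U := (minpoly K0 z).rootSet U ∪ (minpoly K0 r).rootSet U with hA
  have hAfin : A.Finite := (rootSet_finite _ _).union (rootSet_finite _ _)
  have hzA : z ∈ A := Or.inl ((mem_rootSet_of_ne (minpoly.ne_zero (hint z))).2 (minpoly.aeval K0 z))
  have hrA : r ∈ A := Or.inr ((mem_rootSet_of_ne (minpoly.ne_zero (hint r))).2 (minpoly.aeval K0 r))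
  -- the elements of `A` are images of elements of `U'`
  have hconj : ∀ x : U, (∃ x' : U', algebraMap U' U x' = x) → ∀ w ∈ (minpoly K0 x).rootSet U,
      ∃ w' : U', algebraMap U' U w' = w := by
    rintro x ⟨x', rfl⟩ w hw
    have h1 : aeval w (minpoly K0 (algebraMap U' U x')) = 0 :=
      (mem_rootSet_of_ne (minpoly.ne_zero (hint _))).1 hw
    obtain ⟨χ, hχ⟩ := IntermediateField.exists_algHom_of_splits_of_aeval
      (K := U) (E := U) (F := K0)
      (fun s => ⟨hint s, hn.splits s⟩) h1
    have h2 : Algebra.IsAlgebraic K0 U := hn.toIsAlgebraic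
    let T : U ≃ₐ[K0] U := AlgEquiv.ofBijective χ (Algebra.IsAlgebraic.algHom_bijective χ)
    have hT : Au E K0 (T : U ≃+* U) := by
      refine ⟨fun x => T.commutes x, presE_of G.algE (fun x => ?_)⟩
      rw [IsScalarTower.algebraMap_apply k K0 U]
      exact T.commutes _
    obtain ⟨w', hw'⟩ := P.maps G hℓ.pos hr hT x'
    refine ⟨w', ?_⟩
    rw [← hw', ← hχ]
    rfl
  have hA' : ∀ w ∈ A, ∃ w' : U', algebraMap U' U w' = w := by
    rintro w (hw | hw)
    · exact hconj z ⟨z', rfl⟩ w hw
    · exact hconj r ⟨r', rfl⟩ w hw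
  -- the level
  have hff : IsFunctionField E (IntermediateField.adjoin E (Set.range (algebraMap K0 U) ∪ A)) := by
    have h1 := IntermediateField.adjoin_adjoin_left E (Set.range (algebraMap K0 U)) A
    rw [← h1]
    have hfs : Finite A := hAfin.to_subtype
    have h2 : FiniteDimensional (L0 E K0 (U := U))
        (IntermediateField.adjoin (L0 E K0 (U := U)) A) := by
      refine IntermediateField.finiteDimensional_adjoin fun x _ => ?_
      obtain ⟨p, hp, hpx⟩ := hint x
      let φ : K0 →+* L0 E K0 (U := U) := (algebraMap K0 U).codRestrict _ fun a =>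
        IntermediateField.subset_adjoin E _ ⟨a, rfl⟩
      refine ⟨p.map φ, hp.map φ, ?_⟩
      rw [eval₂_map]
      exact hpx
    exact @isFunctionField_restrictScalars _ _ _ _ _ _ G.ff _ h2
  refine ⟨IntermediateField.adjoin E (Set.range (algebraMap K0 U) ∪ A), ⟨hff, fun x =>
    IntermediateField.subset_adjoin _ _ (Or.inl ⟨x, rfl⟩), ?_⟩, ?_, ?_,
    IntermediateField.subset_adjoin _ _ (Or.inr hzA)⟩
  · intro T hTK hTE w hw
    induction hw using IntermediateField.adjoin_induction with
    | mem x hx =>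
      rcases hx with ⟨x, rfl⟩ | hx
      · rw [hTK]
        exact IntermediateField.subset_adjoin _ _ (Or.inl ⟨x, rfl⟩)
      · refine IntermediateField.subset_adjoin _ _ (Or.inr ?_)
        let τ : U →ₐ[K0] U := { (T : U →+* U) with commutes' := hTK }
        rcases hx with hx | hx
        · refine Or.inl ((mem_rootSet_of_ne (minpoly.ne_zero (hint z))).2 ?_)
          have h1 := (mem_rootSet_of_ne (minpoly.ne_zero (hint z))).1 hx
          have h2 := Polynomial.aeval_algHom_apply τ x (minpoly K0 z)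
          rw [h1, map_zero] at h2
          exact h2
        · refine Or.inr ((mem_rootSet_of_ne (minpoly.ne_zero (hint r))).2 ?_)
          have h1 := (mem_rootSet_of_ne (minpoly.ne_zero (hint r))).1 hx
          have h2 := Polynomial.aeval_algHom_apply τ x (minpoly K0 r)
          rw [h1, map_zero] at h2
          exact h2
    | algebraMap e =>
      obtain ⟨e', he'⟩ := hTE e
      rw [he']
      exact IntermediateField.algebraMap_mem _ e'
    | add x y _ _ h1 h2 => rw [map_add]; exact add_mem h1 h2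
    | inv x _ h1 => rw [map_inv₀]; exact inv_mem h1
    | mul x y _ _ h1 h2 => rw [map_mul]; exact mul_mem h1 h2
  · refine IntermediateField.adjoin_le_iff.2 ?_
    rintro w (hw | hw)
    · exact IntermediateField.subset_adjoin _ _ (Or.inl hw)
    · rw [Set.mem_singleton_iff] at hw
      rw [hw]
      exact IntermediateField.subset_adjoin _ _ (Or.inr hrA)
  · intro a ha
    have har : (a ^ ℓ) r = r := by
      obtain ⟨ζ, hζ1, hζ⟩ := Pool.Agent.PDL.eig_root (E := E) hℓ.pos hr0 (T := a)
        (by rw [G.rpow, ha.fixK])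
      have h1 : ∀ n : ℕ, (a ^ n) r = algebraMap E U (ζ ^ n) * r := by
        intro n
        induction n with
        | zero => rw [pow_zero, pow_zero, map_one, one_mul]; rfl
        | succ n ih =>
          rw [pow_succ]
          change (a ^ n) (a r) = _
          rw [hζ, map_mul, ih, (auE_pow97 ha n).fixE, pow_succ, map_mul]
          ring
      rw [h1, hζ1, map_one, one_mul]
    have hj : ∀ w ∈ A, ∃ j : ℕ, ((a ^ ℓ) ^ ℓ ^ j) w = w := by
      intro w hw
      exact (P.mem w).1 (hA' w hw) (a ^ ℓ) (auE_pow97 ha ℓ) har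
    choose! j hj using hj
    obtain ⟨J, hJ⟩ : ∃ J : ℕ, ∀ w ∈ A, j w ≤ J := by
      obtain ⟨J, hJ⟩ := (hAfin.image j).bddAbove
      exact ⟨J, fun w hw => hJ ⟨w, hw, rfl⟩⟩
    refine ⟨J + 1, fun w hw => ?_⟩
    have h2 : a ^ ℓ ^ (J + 1) = (a ^ ℓ) ^ ℓ ^ J := by
      rw [← pow_mul, pow_succ, mul_comm]
    rw [h2]
    have h3 : AuE E K0 ((a ^ ℓ) ^ ℓ ^ J) := auE_pow97 (auE_pow97 ha ℓ) _
    induction hw using IntermediateField.adjoin_induction with
    | mem x hx =>
      rcases hx with ⟨x, rfl⟩ | hx
      · exact h3.fixK x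
      · have h4 : ℓ ^ J = ℓ ^ j x * ℓ ^ (J - j x) := by
          rw [← pow_add, Nat.add_sub_cancel' (hJ x hx)]
        rw [h4, pow_mul]
        exact pow_fix97' (hj x hx) _
    | algebraMap e => exact h3.fixE e
    | add x y _ _ h1 h2 => rw [map_add, h1, h2]
    | inv x _ h1 => rw [map_inv₀, h1]
    | mul x y _ _ h1 h2 => rw [map_mul, h1, h2]

end lv

end

end Pool.Agent.FFS
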