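import Pool.Agent.Helper97.FF.Conv
import Pool.Agent.Helper45.FF.PR.Defs

/-!
# Project FF: every rational branch point has a pro-`ℓ` section
-/

set_option autoImplicit false

namespace Pool.Agent.FFS

open IntermediateField Pool.Agent.Helper91.Sect
open Pool.Agent.ML (GBr)
open Pool.Agent.PRG (RatG)
open Pool.Agent.GCL (KurL ProSection IsGeom)

noncomputable section

/-- The residue field of a rational branch point is `k`. -/
theorem res_ratG97 {k K0 : Type} [Field k] [CharZero k] [Field K0] [Algebra k K0] {ℓ : ℕ} {h : K0}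
    (b : GBr k (AlgebraicClosure k) ℓ h) (hb : RatG b) (x : K0) (hx : x ∈ b.P) :
    ∃ a : k, b.P.valuation (x - algebraMap k K0 a) < 1 := by
  have hfix : ∀ g : AlgebraicClosure k ≃ₐ[k] AlgebraicClosure k, g (b.φ ⟨x, hx⟩) = b.φ ⟨x, hx⟩ := by
    intro g
    have h1 : (b.map g).φ = b.φ := by
      have h2 := hb g
      refine RingHom.ext fun z => ?_
      have h4 : ∀ b' : GBr k (AlgebraicClosure k) ℓ h, b' = b → ∀ (hx' : (z : K0) ∈ b'.P),
          b'.φ ⟨z, hx'⟩ = b.φ z := by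
        rintro _ rfl _
        rfl
      exact h4 _ h2 z.2
    have h5 := RingHom.congr_fun h1 ⟨x, hx⟩
    exact h5
  have hmem : b.φ ⟨x, hx⟩ ∈ (⊥ : IntermediateField k (AlgebraicClosure k)) :=
    (InfiniteGalois.mem_bot_iff_fixed _).2 hfix
  obtain ⟨a, ha⟩ := IntermediateField.mem_bot.1 hmem
  refine ⟨a, ?_⟩
  have hxa : x - algebraMap k K0 a ∈ b.P := sub_mem hx (b.const a)
  have h0 : b.φ ⟨x - algebraMap k K0 a, hxa⟩ = 0 := by
    have h6 : (⟨x - algebraMap k K0 a, hxa⟩ : b.P) = ⟨x, hx⟩ - ⟨algebraMap k K0 a, b.const a⟩ := rfl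
    rw [h6, map_sub, b.emb a ⟨algebraMap k K0 a, b.const a⟩ rfl, ha, sub_self]
  by_contra hcon
  have h7 : b.P.valuation (x - algebraMap k K0 a) = 1 :=
    le_antisymm ((b.P.valuation_le_one_iff _).2 hxa) (not_lt.1 hcon)
  have h8 : IsUnit (⟨x - algebraMap k K0 a, hxa⟩ : b.P) :=
    (b.P.valuation_eq_one_iff ⟨x - algebraMap k K0 a, hxa⟩).2 h7
  have h9 := h8.map b.φ
  rw [h0] at h9
  exact not_isUnit_zero h9

/-- The section of a rational branch point of the curve `K`. -/
theorem conv_sec97 {k K0 K : Type} [Field k] [CharZero k] [Field K0] [Field K] [Algebra k K0]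
    [Algebra k K] [Algebra K0 K] [IsScalarTower k K0 K] {ℓ : ℕ} (hℓ : ℓ.Prime) {h : K0}
    (b : GBr k (AlgebraicClosure k) ℓ h) (hb : RatG b) {c : k} (hc : c ≠ 0) {y : K}
    (hy : algebraMap k K c * y ^ ℓ = algebraMap K0 K h)
    (htop : IntermediateField.adjoin K0 {y} = ⊤) :
    ∃ (s : GaloisSection k K) (W : ValuationSubring (AlgebraicClosure K)),
      (∀ z, IsAlgebraic k z → z ∈ W) ∧
      (∀ z : K0, algebraMap K (AlgebraicClosure K) (algebraMap K0 K z) ∈ W ↔ z ∈ b.P) ∧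
      ∀ (z : Kur k K) (g : Gk k K), (z : AlgebraicClosure K) ∈ W ↔
        (s.toHom g z : AlgebraicClosure K) ∈ W := by
  classical
  have hcK : algebraMap k K c ≠ 0 := (map_ne_zero_iff _ (algebraMap k K).injective).2 hc
  have hyc : y ^ ℓ = algebraMap K0 K (algebraMap k K0 c⁻¹ * h) := by
    rw [map_mul, ← IsScalarTower.algebraMap_apply k K0 K, map_inv₀, ← hy]
    field_simp
  have hint : IsIntegral K0 y := by
    refine ⟨Polynomial.X ^ ℓ - Polynomial.C (algebraMap k K0 c⁻¹ * h),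
      Polynomial.monic_X_pow_sub_C _ hℓ.ne_zero, ?_⟩
    rw [Polynomial.eval₂_sub, Polynomial.eval₂_pow, Polynomial.eval₂_X, Polynomial.eval₂_C, hyc,
      sub_self]
  have halg : Algebra.IsAlgebraic K0 K := by
    have h1 : Algebra.IsAlgebraic K0 (IntermediateField.adjoin K0 {y}) :=
      IntermediateField.isAlgebraic_adjoin_simple hint
    rw [htop] at h1
    exact IntermediateField.topEquiv.isAlgebraic_iff.1 h1
  let φ : K →ₐ[K0] AlgebraicClosure K0 := IsAlgClosed.lift
  have hφ : ∀ z : K, φ z ∈ K0⟮φ y⟯ := by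
    intro z
    have h1 : z ∈ IntermediateField.adjoin K0 {y} := by rw [htop]; trivial
    have h2 : φ z ∈ (IntermediateField.adjoin K0 {y}).map φ := ⟨z, h1, rfl⟩
    rw [IntermediateField.adjoin_map, Set.image_singleton] at h2
    exact h2
  have hw : φ y ^ ℓ = algebraMap K0 (AlgebraicClosure K0) (algebraMap k K0 c⁻¹ * h) := by
    rw [← map_pow, hyc, AlgHom.commutes]
  obtain ⟨V₀, hV1, hV2, hV3⟩ := LN.conv_res97 ℓ hℓ.two_le h b.P b.const (fun l hl hl' z => by
    rw [(Nat.prime_dvd_prime_iff_eq hl hℓ).1 hl']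
    exact b.ram z) (fun x hx => res_ratG97 b hb x hx) c⁻¹ (inv_ne_zero hc) (φ y) hw
  let ψ : K →+* K0⟮φ y⟯ := (φ : K →+* AlgebraicClosure K0).codRestrict _ hφ
  have hψ : ∀ x : K0, ψ (algebraMap K0 K x) = algebraMap K0 (K0⟮φ y⟯) x := fun x =>
    Subtype.ext (φ.commutes x)
  let V : ValuationSubring K := V₀.comap ψ
  have hV : ∀ z : K, z ∈ V ↔ ψ z ∈ V₀ := fun z => Iff.rfl
  have hVk : ∀ a : k, algebraMap k K a ∈ V := by
    intro a
    rw [hV, IsScalarTower.algebraMap_apply k K0 K, hψ]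
    exact hV1 a
  have hVres : ∀ z ∈ V, ∃ a : k, V.valuation (z - algebraMap k K a) < 1 := by
    intro z hz
    obtain ⟨a, ha⟩ := hV2 (ψ z) ((hV z).1 hz)
    refine ⟨a, ?_⟩
    rw [← V.mem_nonunits_iff, V.mem_nonunits_iff_or, hV]
    rw [← V₀.mem_nonunits_iff, V₀.mem_nonunits_iff_or] at ha
    have h1 : ψ (z - algebraMap k K a) = ψ z - algebraMap K0 (K0⟮φ y⟯) (algebraMap k K0 a) := by
      rw [map_sub, IsScalarTower.algebraMap_apply k K0 K, hψ]
    rcases ha with ha | ha
    · left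
      apply ψ.injective
      rw [h1, map_zero]
      exact ha
    · right
      rw [map_inv₀, h1]
      exact ha
  obtain ⟨s, W', hWk, hVW, hs⟩ := Pool.Agent.HG.section_of_place' V hVk hVres
  have hWc : ∀ z, IsAlgebraic k z → z ∈ W' := fun z hz => const_mem hWk hz
  have hW0 : ∀ z : K, z ∈ V → algebraMap K (AlgebraicClosure K) z ∈ W' := by
    intro z hz
    obtain ⟨a, ha⟩ := hVres z hz
    have h1 := hVW _ ha
    have h2 : algebraMap K (AlgebraicClosure K) z =
        algebraMap K (AlgebraicClosure K) (z - algebraMap k K a) +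
          algebraMap k (AlgebraicClosure K) a := by
      rw [map_sub, ← IsScalarTower.algebraMap_apply k K (AlgebraicClosure K)]
      ring
    rw [h2]
    exact add_mem ((W'.valuation_le_one_iff _).1 h1.le) (hWk a)
  have hW1 : ∀ z : K, algebraMap K (AlgebraicClosure K) z ∈ W' → z ∈ V := by
    intro z hz
    by_contra hcon
    have h1 : 1 < V.valuation z := not_le.1 fun h => hcon ((V.valuation_le_one_iff z).1 h)
    have h2 : V.valuation z⁻¹ < 1 := by
      rw [map_inv₀]
      exact inv_lt_one_of_one_lt₀ h1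
    have h3 := hVW _ h2
    rw [map_inv₀, map_inv₀] at h3
    have h4 : W'.valuation (algebraMap K (AlgebraicClosure K) z) ≠ 0 := by
      intro h0
      have h5 : z = 0 := by simpa using h0
      rw [h5, map_zero] at h1
      exact absurd h1 (by simp)
    have h5 : 1 < W'.valuation (algebraMap K (AlgebraicClosure K) z) :=
      (inv_lt_one₀ (zero_lt_iff.2 h4)).1 h3
    exact absurd ((W'.valuation_le_one_iff _).2 hz) (not_le.2 h5)
  refine ⟨s, W', hWc, fun z => ⟨fun hz => ?_, fun hz => ?_⟩, fun z g => ?_⟩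
  · have h1 := hW1 _ hz
    rw [hV, hψ] at h1
    exact (hV3 z).1 h1
  · refine hW0 _ ?_
    rw [hV, hψ]
    exact (hV3 z).2 hz
  · obtain ⟨τ, hτ1, hτ2⟩ := hs g
    rw [hτ2, hτ1]

section resPro

variable {k K : Type} [Field k] [Field K] [Algebra k K] {ℓ : ℕ}

theorem KurL_le97 {z : AlgebraicClosure K} (hz : z ∈ KurL ℓ k K) : z ∈ Kur k K := hz.1

/-- `KurL` is stable under the automorphisms of a section -/
theorem sec_mem97 (s : GaloisSection k K) (g : Gk k K) {z : AlgebraicClosure K}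
    (hz : z ∈ KurL ℓ k K) :
    (s.toHom g ⟨z, KurL_le97 hz⟩ : AlgebraicClosure K) ∈ KurL ℓ k K := by
  obtain ⟨hz1, hz2⟩ := hz
  refine ⟨(s.toHom g ⟨z, hz1⟩).2, fun σ hσ => ?_⟩
  set α : Pi1 k K := s.toHom g with hα
  have hconst : ∀ c : Kur k K, (c : AlgebraicClosure K) ∈ kbar k K →
      (α c : AlgebraicClosure K) ∈ kbar k K := by
    intro c hc
    have h1 := s.isSection g ⟨c, hc⟩ c rfl
    rw [hα, h1]
    exact (g ⟨c, hc⟩).2
  obtain ⟨j, hj⟩ := hz2 (α⁻¹ * σ * α⁻¹⁻¹) (by
    intro c hc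
    change α⁻¹ (σ (α⁻¹⁻¹ c)) = c
    rw [inv_inv, hσ (α c) (hconst c hc)]
    exact α.symm_apply_apply c)
  refine ⟨j, ?_⟩
  rw [conj_pow] at hj
  change α⁻¹ ((σ ^ ℓ ^ j) (α⁻¹⁻¹ ⟨z, hz1⟩)) = ⟨z, hz1⟩ at hj
  rw [inv_inv] at hj
  have h3 := congrArg α hj
  have h4 : α (α⁻¹ ((σ ^ ℓ ^ j) (α ⟨z, hz1⟩))) = (σ ^ ℓ ^ j) (α ⟨z, hz1⟩) :=
    α.apply_symm_apply _
  rw [h4] at h3
  exact h3

/-- the restriction of `s(g)` to `KurL` -/
def resHom97 (s : GaloisSection k K) (g : Gk k K) : KurL ℓ k K →ₐ[K] KurL ℓ k K where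
  toFun z := ⟨s.toHom g ⟨z, KurL_le97 z.2⟩, sec_mem97 s g z.2⟩
  map_one' := Subtype.ext (congrArg (fun w : Kur k K => (w : AlgebraicClosure K)) (map_one (s.toHom g)))
  map_zero' := Subtype.ext (congrArg (fun w : Kur k K => (w : AlgebraicClosure K)) (map_zero (s.toHom g)))
  map_mul' a b := Subtype.ext (congrArg (fun w : Kur k K => (w : AlgebraicClosure K)) (map_mul (s.toHom g)
    (⟨a, KurL_le97 a.2⟩ : Kur k K) ⟨b, KurL_le97 b.2⟩))
  map_add' a b := Subtype.ext (congrArg (fun w : Kur k K => (w : AlgebraicClosure K)) (map_add (s.toHom g)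
    (⟨a, KurL_le97 a.2⟩ : Kur k K) ⟨b, KurL_le97 b.2⟩))
  commutes' c := Subtype.ext (congrArg (fun w : Kur k K => (w : AlgebraicClosure K)) ((s.toHom g).commutes c))

theorem resHom97_comp (s : GaloisSection k K) (g g' : Gk k K) (z : KurL ℓ k K) :
    resHom97 s g (resHom97 s g' z) = resHom97 s (g * g') z := by
  apply Subtype.ext
  change (s.toHom g (s.toHom g' ⟨z, _⟩) : AlgebraicClosure K) = s.toHom (g * g') ⟨z, _⟩
  rw [map_mul]
  rfl

theorem resHom97_one (s : GaloisSection k K) (z : KurL ℓ k K) : resHom97 s 1 z = z := by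
  apply Subtype.ext
  change (s.toHom 1 ⟨z, _⟩ : AlgebraicClosure K) = z
  rw [map_one]
  rfl

/-- The section of the geometrically pro-`ℓ` fundamental group induced by a Galois section. -/
def resPro97 (ℓ : ℕ) (s : GaloisSection k K) : ProSection ℓ k K where
  toHom :=
    { toFun := fun g => AlgEquiv.ofAlgHom (resHom97 s g) (resHom97 s g⁻¹)
        (AlgHom.ext fun z => by
          change resHom97 s g (resHom97 s g⁻¹ z) = z
          rw [resHom97_comp, mul_inv_cancel, resHom97_one])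
        (AlgHom.ext fun z => by
          change resHom97 s g⁻¹ (resHom97 s g z) = z
          rw [resHom97_comp, inv_mul_cancel, resHom97_one])
      map_one' := AlgEquiv.ext fun z => resHom97_one s z
      map_mul' := fun g g' => AlgEquiv.ext fun z => (resHom97_comp s g g' z).symm }
  continuous_toHom := by
    refine continuous_of_continuousAt_one _ ?_
    rw [ContinuousAt, map_one]
    intro U hU
    obtain ⟨E, hE, hEU⟩ := (krullTopology_mem_nhds_one_iff _ _ U).1 hU
    let ι : KurL ℓ k K →ₐ[K] Kur k K :=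
      IntermediateField.inclusion (fun z hz => KurL_le97 hz)
    have hE' : FiniteDimensional K (E.map ι) :=
      (IntermediateField.equivMap E ι).toLinearEquiv.finiteDimensional
    have h1 : ((E.map ι).fixingSubgroup : Set (Pi1 k K)) ∈ nhds (1 : Pi1 k K) :=
      (krullTopology_mem_nhds_one_iff _ _ _).2 ⟨E.map ι, hE', subset_rfl⟩
    have h2 := s.continuous_toHom.continuousAt (x := 1)
    rw [ContinuousAt, map_one] at h2
    have h3 : s.toHom ⁻¹' ((E.map ι).fixingSubgroup : Set (Pi1 k K)) ∈ nhds (1 : Gk k K) := h2 h1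
    rw [Filter.mem_map]
    refine Filter.mem_of_superset h3 fun g hg => hEU ?_
    rw [SetLike.mem_coe, IntermediateField.mem_fixingSubgroup_iff]
    intro x hx
    have hg' : s.toHom g ∈ (E.map ι).fixingSubgroup := hg
    rw [IntermediateField.mem_fixingSubgroup_iff] at hg'
    exact Subtype.ext (congrArg (fun w : Kur k K => (w : AlgebraicClosure K))
      (hg' (ι x) ⟨x, hx, rfl⟩))
  isSection σ z w hw := s.isSection σ z ⟨w, KurL_le97 w.2⟩ hw

theorem coe_resPro97 (s : GaloisSection k K) (g : Gk k K) (z : KurL ℓ k K) :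
    ((resPro97 ℓ s).toHom g z : AlgebraicClosure K) = s.toHom g ⟨z, KurL_le97 z.2⟩ := rfl

end resPro

/-- Every rational branch point gives a section of the geometrically pro-`ℓ` fundamental group. -/
theorem conv_pro97 {k K0 K : Type} [Field k] [CharZero k] [Field K0] [Field K] [Algebra k K0]
    [Algebra k K] [Algebra K0 K] [IsScalarTower k K0 K] {ℓ : ℕ} (hℓ : ℓ.Prime) {h : K0}
    (b : GBr k (AlgebraicClosure k) ℓ h) (hb : RatG b) {c : k} (hc : c ≠ 0) {y : K}
    (hy : algebraMap k K c * y ^ ℓ = algebraMap K0 K h)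
    (htop : IntermediateField.adjoin K0 {y} = ⊤) : ∃ s : ProSection ℓ k K, AgrP s b.P := by
  obtain ⟨s, W, h1, h2, h3⟩ := conv_sec97 hℓ b hb hc hy htop
  refine ⟨resPro97 ℓ s, W.comap (algebraMap (KurL ℓ k K) (AlgebraicClosure K)), fun z hz => h1 _ hz,
    fun x => (h2 x).symm, fun g z => ?_⟩
  exact (h3 ⟨z, KurL_le97 z.2⟩ g).symm

end

end Pool.Agent.FFS
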