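import Pool.Agent.Helper45.LN.Conv
import Pool.Agent.Helper13.HG2.Inf


/-!
# Project FF: every rational branch point has a pro-`ℓ` section
-/

set_option autoImplicit false

namespace Pool.Agent.LN

open IntermediateField Pool.Agent.Helper91.Sect

/-- The valuation ring of a totally ramified rational point on `K0(w)`, `w ^ n = c h`. -/
theorem conv_res97 {k K0 : Type} [Field k] [CharZero k] [Field K0] [Algebra k K0] (n : ℕ)
    (hn : 2 ≤ n) (h : K0) (P : ValuationSubring K0) (hk : ∀ a : k, algebraMap k K0 a ∈ P)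
    (hodd : ∀ l : ℕ, l.Prime → l ∣ n → ∀ z : K0, P.valuation h ≠ P.valuation z ^ l)
    (hres : ∀ x ∈ P, ∃ a : k, P.valuation (x - algebraMap k K0 a) < 1) (c : k) (hc : c ≠ 0)
    (w : AlgebraicClosure K0)
    (hw : w ^ n = algebraMap K0 (AlgebraicClosure K0) (algebraMap k K0 c * h)) :
    ∃ V : ValuationSubring (K0⟮w⟯), (∀ a : k, algebraMap K0 (K0⟮w⟯) (algebraMap k K0 a) ∈ V) ∧
      (∀ z ∈ V, ∃ a : k, V.valuation (z - algebraMap K0 (K0⟮w⟯) (algebraMap k K0 a)) < 1) ∧
      ∀ x : K0, algebraMap K0 (K0⟮w⟯) x ∈ V ↔ x ∈ P := by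
  classical
  have hn0 : n ≠ 0 := by omega
  have hnpos : 0 < n := by omega
  have hK0 : CharZero K0 := charZero_of_injective_algebraMap (algebraMap k K0).injective
  let C := AlgebraicClosure K0
  have hgal : IsGalois K0 C := IsAlgClosure.isGalois K0 _
  obtain ⟨Q, hQ, hA⟩ := exists_above (k := K0) (C := C) (O := P)
  have hc1 : P.valuation (algebraMap k K0 c) = 1 := by
    have h1 : P.valuation (algebraMap k K0 c) ≤ 1 := (P.valuation_le_one_iff _).2 (hk c)
    have h2 : P.valuation (algebraMap k K0 c⁻¹) ≤ 1 := (P.valuation_le_one_iff _).2 (hk c⁻¹)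
    rw [map_inv₀, map_inv₀] at h2
    have h3 : P.valuation (algebraMap k K0 c) ≠ 0 := by simpa using hc
    exact le_antisymm h1 ((inv_le_one₀ (zero_lt_iff.2 h3)).1 h2)
  obtain ⟨g, hg⟩ : ∃ g : K0, g = algebraMap k K0 c * h := ⟨_, rfl⟩
  rw [← hg] at hw
  have hodd' : ∀ l : ℕ, l.Prime → l ∣ n → ∀ z : K0, P.valuation g ≠ P.valuation z ^ l := by
    intro l hl hln z
    rw [hg, map_mul, hc1, one_mul]
    exact hodd l hl hln z
  have hg0 : g ≠ 0 := by
    intro h0
    obtain ⟨l, hl, hln⟩ := Nat.exists_prime_and_dvd (show n ≠ 1 by omega)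
    apply hodd' l hl hln 0
    rw [h0, map_zero, zero_pow hl.ne_zero]
  have hw0 : w ≠ 0 := by
    intro h0
    rw [h0, zero_pow hn0] at hw
    exact hg0 ((algebraMap K0 C).injective (by rw [← hw, map_zero]))
  -- the powers of `w` have values in different classes
  have hpow : ∀ (d : ℕ), 0 < d → d < n → ∀ a b : K0, a ≠ 0 → b ≠ 0 →
      (locW Q).valuation (algebraMap K0 C a) ≠ (locW Q).valuation (algebraMap K0 C b * w ^ d) := by
    intro d hd0 hdl a b ha hb heq
    have h1 : (locW Q).valuation (algebraMap K0 C (a ^ n)) =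
        (locW Q).valuation (algebraMap K0 C (b ^ n * g ^ d)) := by
      rw [map_pow, map_pow, heq, ← map_pow, mul_pow, ← pow_mul, mul_comm d n, pow_mul, hw,
        ← map_pow, ← map_pow, ← map_mul]
    rw [locW_eq_iff Q hA (mul_ne_zero (pow_ne_zero n hb) (pow_ne_zero d hg0))] at h1
    have hga : P.valuation g ≠ 0 := by simpa using hg0
    have hva : P.valuation a ≠ 0 := by simpa using ha
    have hvb : P.valuation b ≠ 0 := by simpa using hb
    have h3 : (P.valuation g) ^ d = (P.valuation (a / b)) ^ n := by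
      rw [map_div₀, div_pow]
      rw [map_pow, map_mul, map_pow, map_pow] at h1
      rw [h1, mul_div_cancel_left₀ _ (pow_ne_zero n hvb)]
    -- divide by the greatest common divisor
    obtain ⟨e, d', n', he, hd', hn', hcop⟩ : ∃ e d' n' : ℕ, 0 < e ∧ d = d' * e ∧ n = n' * e ∧
        Nat.Coprime d' n' := by
      refine ⟨Nat.gcd d n, d / Nat.gcd d n, n / Nat.gcd d n, Nat.gcd_pos_of_pos_left n hd0,
        (Nat.div_mul_cancel (Nat.gcd_dvd_left d n)).symm,
        (Nat.div_mul_cancel (Nat.gcd_dvd_right d n)).symm,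
        Nat.coprime_div_gcd_div_gcd (Nat.gcd_pos_of_pos_left n hd0)⟩
    have hn'1 : n' ≠ 1 := by
      rintro rfl
      have h5 : n ≤ d := by
        rw [hn', hd', one_mul]
        refine Nat.le_mul_of_pos_left e (Nat.pos_of_ne_zero ?_)
        rintro rfl
        omega
      omega
    obtain ⟨l, hl, m, hm⟩ := Nat.exists_prime_and_dvd hn'1
    have hln : l ∣ n := by
      rw [hn', hm]
      exact Dvd.dvd.mul_right (Dvd.intro m rfl) e
    have h4 : (P.valuation g) ^ d' = (P.valuation (a / b)) ^ n' := by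
      rw [hd', hn', pow_mul, pow_mul] at h3
      exact (pow_left_inj₀ zero_le zero_le he.ne').1 h3
    have hbez : (d' : ℤ) * Nat.gcdA d' n' + (n' : ℤ) * Nat.gcdB d' n' = 1 := by
      have h2 := Nat.gcd_eq_gcd_ab d' n'
      rw [hcop.gcd_eq_one] at h2
      exact_mod_cast h2.symm
    apply hodd' l hl hln (((a / b) ^ Nat.gcdA d' n' * g ^ Nat.gcdB d' n') ^ m)
    calc P.valuation g = (P.valuation g) ^ ((d' : ℤ) * Nat.gcdA d' n' + (n' : ℤ) * Nat.gcdB d' n') := by
          rw [hbez, zpow_one]
      _ = ((P.valuation g) ^ d') ^ (Nat.gcdA d' n') * ((P.valuation g) ^ (Nat.gcdB d' n')) ^ n' := by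
          rw [zpow_add₀ hga, zpow_mul, zpow_natCast, mul_comm (n' : ℤ), zpow_mul, zpow_natCast]
      _ = (P.valuation ((a / b) ^ Nat.gcdA d' n' * g ^ Nat.gcdB d' n')) ^ n' := by
          have h5 : ((P.valuation (a / b)) ^ n') ^ (Nat.gcdA d' n') =
              ((P.valuation (a / b)) ^ (Nat.gcdA d' n')) ^ n' := by
            rw [← zpow_natCast, ← zpow_mul, mul_comm, zpow_mul, zpow_natCast]
          rw [h4, h5, map_mul P.valuation, map_zpow₀, map_zpow₀, mul_pow]
      _ = (P.valuation (((a / b) ^ Nat.gcdA d' n' * g ^ Nat.gcdB d' n') ^ m)) ^ l := by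
          rw [map_pow P.valuation (_ * _) m, ← pow_mul, mul_comm m l, ← hm]
  have hpow2 : ∀ i j : ℕ, i < n → j < n → i ≠ j → ∀ a b : K0, a ≠ 0 →
      (locW Q).valuation (algebraMap K0 C a * w ^ i) ≠
        (locW Q).valuation (algebraMap K0 C b * w ^ j) := by
    intro i j hi hj hij a b ha heq
    have hb : b ≠ 0 := by
      rintro rfl
      rw [map_zero, zero_mul, map_zero, map_eq_zero] at heq
      rcases mul_eq_zero.1 heq with h1 | h1
      · exact ha ((algebraMap K0 C).injective (by rw [h1, map_zero]))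
      · exact pow_ne_zero i hw0 h1
    have hwv : ∀ m : ℕ, (locW Q).valuation (w ^ m) ≠ 0 := fun m => by
      simpa using pow_ne_zero m hw0
    rcases lt_or_gt_of_ne hij with h1 | h1
    · obtain ⟨d, rfl⟩ := Nat.exists_eq_add_of_lt h1
      refine hpow (d + 1) (by omega) (by omega) a b ha hb ?_
      have h2 : algebraMap K0 C b * w ^ (i + d + 1) =
          (algebraMap K0 C b * w ^ (d + 1)) * w ^ i := by ring
      rw [h2, map_mul, map_mul ((locW Q).valuation) (algebraMap K0 C b * w ^ (d + 1))] at heq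
      exact mul_right_cancel₀ (hwv i) heq
    · obtain ⟨d, rfl⟩ := Nat.exists_eq_add_of_lt h1
      refine hpow (d + 1) (by omega) (by omega) b a hb ha ?_
      have h2 : algebraMap K0 C a * w ^ (j + d + 1) =
          (algebraMap K0 C a * w ^ (d + 1)) * w ^ j := by ring
      rw [h2, map_mul, map_mul ((locW Q).valuation) (algebraMap K0 C b)] at heq
      exact (mul_right_cancel₀ (hwv j) heq).symm
  let K : IntermediateField K0 C := K0⟮w⟯
  have hwK : w ∈ K := IntermediateField.mem_adjoin_simple_self K0 w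
  let V : ValuationSubring K := (locW Q).comap (algebraMap K C)
  have hV : ∀ z : K, z ∈ V ↔ (z : C) ∈ locW Q := fun z => Iff.rfl
  have hVlt : ∀ z : K, (locW Q).valuation (z : C) < 1 → V.valuation z < 1 := by
    intro z hz
    rw [← V.mem_nonunits_iff, V.mem_nonunits_iff_or, hV]
    have h1 := (locW Q).mem_nonunits_iff_or.1 ((locW Q).mem_nonunits_iff.2 hz)
    rcases h1 with h1 | h1
    · left; exact Subtype.ext h1
    · right; exact h1
  have hle : ∀ a : K0, (locW Q).valuation (algebraMap K0 C a) ≤ 1 → a ∈ P := by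
    intro a ha
    by_contra hcon
    have h1 : 1 < P.valuation a := not_le.1 (fun h => hcon ((P.valuation_le_one_iff a).1 h))
    have h2 : P.valuation a⁻¹ < 1 := by
      rw [map_inv₀]; exact inv_lt_one_of_one_lt₀ h1
    have h3 := locW_algebraMap_lt Q hA h2
    rw [map_inv₀, map_inv₀] at h3
    have h4 : (locW Q).valuation (algebraMap K0 C a) ≠ 0 := by
      intro h0
      have : a = 0 := by simpa using h0
      rw [this] at h1
      simp at h1
    have h5 : 1 < (locW Q).valuation (algebraMap K0 C a) :=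
      (inv_lt_one₀ (zero_lt_iff.2 h4)).1 h3
    exact absurd ha (not_le.2 h5)
  -- the elements of `K`
  have hrep : ∀ z ∈ K, ∃ β : ℕ → K0, z = ∑ i ∈ Finset.range n, algebraMap K0 C (β i) * w ^ i := by
    intro z hz
    have hmonic : (Polynomial.X ^ n - Polynomial.C g : Polynomial K0).Monic :=
      Polynomial.monic_X_pow_sub_C g hn0
    have hint : IsIntegral K0 w := ⟨_, hmonic, by simp [hw]⟩
    have h1 : z ∈ Algebra.adjoin K0 {w} := by
      rw [← IntermediateField.adjoin_simple_toSubalgebra_of_isAlgebraic hint.isAlgebraic]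
      exact hz
    rw [Algebra.adjoin_singleton_eq_range_aeval] at h1
    obtain ⟨p, rfl⟩ := h1
    have h2 := Polynomial.modByMonic_add_div p (Polynomial.X ^ n - Polynomial.C g : Polynomial K0)
    have h3 : (p %ₘ (Polynomial.X ^ n - Polynomial.C g)).natDegree < n := by
      have := Polynomial.natDegree_modByMonic_lt p hmonic (by
        intro h0
        have h4 := congrArg Polynomial.natDegree h0
        rw [Polynomial.natDegree_X_pow_sub_C, Polynomial.natDegree_one] at h4
        exact hn0 h4)
      rwa [Polynomial.natDegree_X_pow_sub_C] at this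
    refine ⟨fun i => (p %ₘ (Polynomial.X ^ n - Polynomial.C g)).coeff i, ?_⟩
    have h4 : (Polynomial.aeval w : Polynomial K0 →ₐ[K0] C) p =
        Polynomial.aeval w (p %ₘ (Polynomial.X ^ n - Polynomial.C g)) := by
      conv_lhs => rw [← h2]
      rw [map_add, map_mul, map_sub, map_pow, Polynomial.aeval_X, Polynomial.aeval_C, hw, sub_self,
        zero_mul, add_zero]
    change (Polynomial.aeval w : Polynomial K0 →ₐ[K0] C) p = _
    rw [h4, Polynomial.aeval_eq_sum_range' h3]
    exact Finset.sum_congr rfl fun i _ => Algebra.smul_def _ _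
  let _ : Algebra k K := ((algebraMap K0 K).comp (algebraMap k K0)).toAlgebra
  have _ : IsScalarTower k K0 K := IsScalarTower.of_algebraMap_eq fun _ => rfl
  have hVk : ∀ a : k, algebraMap k K a ∈ V := by
    intro a
    rw [hV]
    have h1 : P.valuation (algebraMap k K0 a) ≤ 1 := (P.valuation_le_one_iff _).2 (hk a)
    exact ((locW Q).valuation_le_one_iff _).1 (locW_algebraMap_le (Q := Q) h1)
  have hVres : ∀ z ∈ V, ∃ a : k, V.valuation (z - algebraMap k K a) < 1 := by
    intro z hz
    rw [hV] at hz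
    obtain ⟨β, hβ⟩ := hrep z z.2
    have hz1 : (locW Q).valuation (∑ i ∈ Finset.range n, algebraMap K0 C (β i) * w ^ i) ≤ 1 := by
      rw [← hβ]; exact ((locW Q).valuation_le_one_iff _).2 hz
    have hterm : ∀ i ∈ Finset.range n,
        (locW Q).valuation (algebraMap K0 C (β i) * w ^ i) ≤ 1 := by
      intro i hi
      refine (le_val_sum (locW Q) (Finset.range n) (fun i => algebraMap K0 C (β i) * w ^ i) ?_ i
        hi).trans hz1
      intro i hi j hj hij h0
      refine hpow2 i j (Finset.mem_range.1 hi) (Finset.mem_range.1 hj) hij _ _ ?_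
      intro h1
      apply h0
      show algebraMap K0 C (β i) * w ^ i = 0
      rw [h1, map_zero, zero_mul]
    have h0l : 0 ∈ Finset.range n := Finset.mem_range.2 hnpos
    have hα : β 0 ∈ P := by
      refine hle _ ?_
      have := hterm 0 h0l
      rwa [pow_zero, mul_one] at this
    obtain ⟨a, ha⟩ := hres _ hα
    refine ⟨a, hVlt _ ?_⟩
    have h2 : ((z - algebraMap k K a : K) : C) =
        algebraMap K0 C (β 0 - algebraMap k K0 a) +
          ∑ i ∈ (Finset.range n).erase 0, algebraMap K0 C (β i) * w ^ i := by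
      have h3 : ((z - algebraMap k K a : K) : C) = (z : C) - algebraMap K0 C (algebraMap k K0 a) :=
        rfl
      rw [h3, hβ, ← Finset.add_sum_erase _ _ h0l, map_sub, pow_zero, mul_one]; ring
    rw [h2]
    refine Valuation.map_add_lt _ (locW_algebraMap_lt Q hA ha) ?_
    refine Valuation.map_sum_lt _ one_ne_zero fun i hi => ?_
    have hi' := Finset.mem_erase.1 hi
    refine lt_of_le_of_ne (hterm i hi'.2) ?_
    by_cases h0 : β i = 0
    · simp [h0]
    · have h4 := hpow2 i 0 (Finset.mem_range.1 hi'.2) hnpos hi'.1 (β i) 1 h0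
      rw [map_one, pow_zero, one_mul, map_one] at h4
      exact h4
  refine ⟨V, hVk, hVres, fun x => ⟨fun hx => ?_, fun hx => ?_⟩⟩
  · rw [hV] at hx
    exact hle x (((locW Q).valuation_le_one_iff _).2 hx)
  · rw [hV]
    exact ((locW Q).valuation_le_one_iff _).1
      (locW_algebraMap_le (Q := Q) ((P.valuation_le_one_iff _).2 hx))

end Pool.Agent.LN
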