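import Pool.Agent.Helper59.ML.BIJ
import Pool.Agent.Helper13.ML.GB

/-!
# Project FF: branch places fixed by an action, for fields of characteristic zero
(`Helper90/PL/RSG` without `NumberField`)
-/

set_option autoImplicit false
set_option linter.unusedSectionVars false

namespace Pool.Agent.FFS

open VC IntermediateField NumberField Pool.Agent.SC Pool.Agent.M
open Pool.Agent.L (L0 MM tA tB tA_apply)
open Pool.Agent.LN (Geo Act)
open Pool.Agent.ML (HasMu BPl GBr GPt gp gp_inj gp_surj gp_mv dvd_iff h_ne_zero trE trE_map)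
open Pool.Agent.MP (jj)

noncomputable section

section

variable {k K0 E U : Type} [Field k] [CharZero k] [Field K0] [Field E] [Field U] [Algebra k K0]
    [Algebra k E] [Algebra E U] [Algebra K0 U] [Algebra k U] [IsScalarTower k E U]
    [IsScalarTower k K0 U] {ℓ : ℕ} {h : K0} {r : U}

/-- The branch places of `L0` are the geometric branch points of `Y`. -/
theorem gam97 (hℓ : ℓ.Prime) (geo : Geo k K0 E U ℓ h r) {c : k}
    {Φ : (E ≃ₐ[k] E) →* (U ≃+* U)} (hΦ' : Act (K0 := K0) ℓ r c Φ) :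
    ∃ γ : {b : Place E (L0 E K0 (U := U)) // BPl ℓ h b} ≃ GBr k E ℓ h,
      (∀ (g : E ≃ₐ[k] E) (b b' : {b : Place E (L0 E K0 (U := U)) // BPl ℓ h b}),
        Moves (Φ g) _ b.1 b'.1 ↔ (γ b).map g = γ b') ∧
      ∀ (b : {b : Place E (L0 E K0 (U := U)) // BPl ℓ h b}) (z : K0),
        z ∈ (γ b).P ↔ (inL0 z : L0 E K0 (U := U)) ∈ b.1.ring := by
  have hΦ := ML.toL hΦ'
  have hcl : IsAlgClosed E := geo.clE
  have halg : Algebra.IsAlgebraic k E := geo.algE
  have hch : CharZero E := charZero_of_injective_algebraMap (algebraMap k E).injective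
  have hgal : IsGalois k E := by
    have h1 : IsAlgClosure k E := ⟨hcl, halg⟩
    exact ⟨⟩
  have hh0 := h_ne_zero hℓ.two_le geo
  have hbij : Function.Bijective (gp (k := k) (h := h) (U := U) geo.ff hh0) :=
    ⟨gp_inj geo.ff hh0 hΦ geo.normal, gp_surj geo.ff hh0 hΦ⟩
  have hne : ∀ b : {b : Place E (L0 E K0 (U := U)) // BPl ℓ h b},
      ord b.1.ring (inL0 h) ≠ 0 := by
    rintro ⟨b, hb⟩ h0
    refine hb ?_
    change (ℓ : ℤ) ∣ ord b.ring (inL0 h)
    have h1 : ord b.ring (inL0 h) = 0 := h0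
    rw [h1]
    exact dvd_zero _
  have hdvd := fun (b : Place E (L0 E K0 (U := U))) =>
    dvd_iff geo.ff hh0 hΦ geo.normal b hℓ.pos
  let toG : {b : Place E (L0 E K0 (U := U)) // BPl ℓ h b} → GBr k E ℓ h := fun b =>
    { P := (gp (k := k) geo.ff hh0 ⟨b.1, hne b⟩).P
      φ := (gp (k := k) geo.ff hh0 ⟨b.1, hne b⟩).φ
      const := (gp (k := k) geo.ff hh0 ⟨b.1, hne b⟩).const
      ram := fun z hz => b.2 ((hdvd b.1).2 ⟨z, hz⟩)
      emb := (gp (k := k) geo.ff hh0 ⟨b.1, hne b⟩).emb }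
  let pt : GBr k E ℓ h → GPt k E h := fun b =>
    { P := b.P
      φ := b.φ
      const := b.const
      nt := fun h1 => b.ram 1 (by rw [h1, _root_.map_one, one_pow])
      emb := b.emb }
  have hpt : ∀ b, pt (toG b) = gp (k := k) geo.ff hh0 ⟨b.1, hne b⟩ := fun b => rfl
  have hptinj : Function.Injective pt := by
    rintro ⟨P, φ, h1, h2, h3⟩ ⟨P', φ', h1', h2', h3'⟩ hpp
    have h4 : P = P' := congrArg GPt.P hpp
    subst h4
    have h6 : (⟨P, φ, h1, (pt ⟨P, φ, h1, h2, h3⟩).nt, h3⟩ : GPt k E h) =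
        ⟨P, φ', h1', (pt ⟨P, φ', h1', h2', h3'⟩).nt, h3'⟩ := hpp
    rw [GPt.mk.injEq] at h6
    have h5 : φ = φ' := eq_of_heq h6.2
    subst h5
    rfl
  have hb2 : Function.Bijective toG := by
    constructor
    · intro b b' hbb
      have h1 : gp (k := k) geo.ff hh0 ⟨b.1, hne b⟩ = gp (k := k) geo.ff hh0 ⟨b'.1, hne b'⟩ :=
        congrArg pt hbb
      have h2 := hbij.1 h1
      exact Subtype.ext (Subtype.mk.inj h2)
    · intro b
      obtain ⟨b', hb'⟩ := hbij.2 (pt b)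
      have h1 : ¬ (ℓ : ℤ) ∣ ord b'.1.ring (inL0 h) := by
        intro h1
        obtain ⟨z, hz⟩ := (hdvd b'.1).1 h1
        have h2 : (gp (k := k) geo.ff hh0 b').P.valuation h =
          (gp (k := k) geo.ff hh0 b').P.valuation z ^ ℓ := hz
        rw [hb'] at h2
        exact b.ram z h2
      refine ⟨⟨b'.1, h1⟩, hptinj ?_⟩
      rw [hpt]
      exact hb'
  refine ⟨Equiv.ofBijective toG hb2, fun g b b' => ?_, fun b z => Iff.rfl⟩
  have hmv : Moves (Φ g) _ b.1 b'.1 ↔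
      (gp (k := k) geo.ff hh0 ⟨b.1, hne b⟩).map g = gp (k := k) geo.ff hh0 ⟨b'.1, hne b'⟩ := by
    rw [moves_iff59 hΦ, ← gp_mv geo.ff hh0 hΦ g ⟨b.1, hne b⟩]
    constructor
    · intro h1
      congr 1
      exact Subtype.ext h1.symm
    · intro h1
      exact (congrArg Subtype.val (gp_inj geo.ff hh0 hΦ geo.normal h1)).symm
  rw [hmv]
  change _ ↔ (toG b).map g = toG b'
  constructor
  · intro h1
    apply hptinj
    rw [hpt, ← h1]
    rfl
  · intro h1
    have h2 := congrArg pt h1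
    rw [hpt] at h2
    exact h2

/-- a branch place fixed by an action lies over a rational branch point -/
theorem rch97 (hℓ : ℓ.Prime) (geo : Geo k K0 E U ℓ h r) {c : k}
    {Φ : (E ≃ₐ[k] E) →* (U ≃+* U)} (hΦ : Act (K0 := K0) ℓ r c Φ)
    {b : Place E (L0 E K0 (U := U))} (hb : BPl ℓ h b) (hfix : ∀ g : E ≃ₐ[k] E, Moves (Φ g) _ b b) :
    ∃ a : GBr k E ℓ h, (∀ g : E ≃ₐ[k] E, a.map g = a) ∧
      ∀ z : K0, ((inL0 z : L0 E K0 (U := U)) ∈ b.ring ↔ z ∈ a.P) := by
  obtain ⟨γ, hγ, hP⟩ := gam97 hℓ geo hΦ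
  exact ⟨γ ⟨b, hb⟩, fun g => (hγ g ⟨b, hb⟩ ⟨b, hb⟩).1 (hfix g), fun z => (hP ⟨b, hb⟩ z).symm⟩


end

end

end Pool.Agent.FFS
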