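import Pool.Agent.Helper97.FF.Tr
import Pool.Agent.Helper97.FF.Rch

/-!
# Project FF: the main theorem from the blocks
-/

set_option autoImplicit false

namespace Pool.Agent.FFS

open VC IntermediateField Polynomial Pool.Agent.SC Pool.Agent.Helper91.Sect
open Pool.Agent.L (L0 MM)
open Pool.Agent.LN (Geo Act GoodCurve)
open Pool.Agent.M (Moves OverPl inL0)
open Pool.Agent.ML (BPl GBr trE trE_map)
open Pool.Agent.TOW (Au AuE)
open Pool.Agent.PRL (TT IsPL RtM)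
open Pool.Agent.PRG (RatG TG KBX)

theorem mainOf (hFS : StmtFS) (hKP : StmtKP) (hLOC : StmtLOC) (hLEV : StmtLEV) (hTOW : StmtTOW0) :
    StmtMain := by
  intro F₀ k₀ K₀ _ _ _ _ _ _ hk₀ ht₀ hK₀ m w e hlin ℓ hℓ h₀ hh₀
  classical
  have hc0 : CharZero k₀ := charZero_of_injective_algebraMap (algebraMap F₀ k₀).injective
  obtain ⟨f, hf, hKP'⟩ := hKP k₀ K₀ hK₀ ℓ hℓ h₀ hh₀
  obtain ⟨S, hLOC'⟩ := hLOC k₀ K₀ hK₀ ℓ hℓ h₀ hh₀
  obtain ⟨S', hSS', Q, hQ, hFS'⟩ := hFS F₀ k₀ hk₀ ht₀ m w e hlin ℓ hℓ S f hf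
  refine ⟨Q, hQ, ?_⟩
  intro F k K0 _ _ _ _ _ _ _ _ _ _ _ _ _ _ hF hgen hfree hgenK htr hG a ha K _ _ _ _ y hy s
  obtain ⟨t, htfin, -⟩ := ht₀
  have hkfin := fin_lift97 (F := F) htfin hgen
  obtain ⟨E, U, i1, i2, i3, i4, i5, i6, i7, i8, r, hac, geo, hloc⟩ :=
    hLOC' F k K0 hF ⟨_, hkfin⟩ hgenK htr hG
  obtain ⟨W₀, hW₀⟩ := hFS' F k E hF hgen (fun {n x} hx => hfree hx) a ha
  obtain ⟨Φ, hΦ, hLA, hTr⟩ := hloc _ W₀ (algebraMap k₀ k '' (S' : Set k₀))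
    ((f.map (algebraMap k₀ k)).rootSet E) (fun a ha => ⟨a, hSS' ha, rfl⟩) hW₀ K y hy s
  have hck : CharZero k := charZero_of_injective_algebraMap (algebraMap k₀ k).injective
  have hB := hKP' k K0 E U hgenK htr r geo
  obtain ⟨b, P, hb, hbP, hfix, hall⟩ := hLEV F k K0 E U ℓ _ r hℓ geo _ _ _ _ W₀ hW₀
    (Polynomial.rootSet_finite _ _) (fun g x hx => by
      rw [Polynomial.mem_rootSet] at hx ⊢
      refine ⟨hx.1, ?_⟩
      have h1 := congrArg g hx.2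
      rw [map_zero] at h1
      rw [← h1]
      exact Polynomial.aeval_algHom_apply (g : E →ₐ[k] E) x _) hB Φ hΦ hLA
  obtain ⟨a', ha', hPa⟩ := rch97 hℓ geo hΦ hb hfix
  let eE : E ≃ₐ[k] AlgebraicClosure k := IsAlgClosure.equiv k E (AlgebraicClosure k)
  refine ⟨tr97 eE a', fun g => tr97_map eE a' ha' g, ?_⟩
  refine hTr b P hbP (fun m z hz g => ?_) _ fun x => (hPa x).symm
  obtain ⟨h1, h2, h3⟩ := hTOW k K0 E U ℓ _ r hℓ geo m
  exact hall _ h1 h2 h3 z hz g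

end Pool.Agent.FFS
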