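import Pool.Agent.Helper97.FF.Main
import Pool.Agent.Helper59.FF.KP
import Pool.Agent.Helper20.FF.LOC
import Pool.Agent.Helper13.FF.LEVf
import Pool.Agent.Helper45.FF.PX0

/-!
# Project FF: the main theorem from the field side (`StmtFS`)
-/

set_option autoImplicit false

namespace Pool.Agent.FFS

theorem mainF (hFS : StmtFS) : StmtMain := mainOf hFS stmtKP stmtLOC stmtLEV stmtTOW0

end Pool.Agent.FFS
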