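import Pool.Agent.Helper45.FF.PR.Defs
import Pool.Agent.Helper97.FF.Lv

/-!
# Project FF: the two forms of the maximal pro-`ℓ` extension
-/

set_option autoImplicit false
set_option linter.unusedSectionVars false

namespace Pool.Agent.FFS

open VC IntermediateField Polynomial Pool.Agent.SC
open Pool.Agent.L (L0 MM)
open Pool.Agent.LN (Geo Act)
open Pool.Agent.M (Moves OverPl inL0)
open Pool.Agent.ML (BPl)
open Pool.Agent.TOW (Au AuE)
open Pool.Agent.PRL (IsPL)
open Pool.Agent.GCL (PLf mem_PLf)

noncomputable section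

section pu

variable {k K0 E U' U : Type} [Field k] [CharZero k] [Field K0] [Field E] [Field U']
  [Field U] [Algebra k K0] [Algebra k E] [Algebra E U'] [Algebra E U]
  [Algebra K0 U'] [Algebra K0 U] [Algebra k U] [IsScalarTower k E U]
  [IsScalarTower k K0 U] {ℓ : ℕ} {h : K0} {r : U} {i : U' →+* U} {r' : U'}

theorem isPLF97 (H : IsProU (K0 := K0) (E := E) ℓ r i r') :
    @IsPLF E K0 U' U _ _ _ _ _ _ i.toAlgebra ℓ r' := by
  letI := i.toAlgebra
  refine ⟨fun z => ?_⟩
  have h1 : (∃ z' : U', algebraMap U' U z' = z) ↔ z ∈ PLf ℓ (MM E K0 r) := (H.range z).symm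
  rw [h1, mem_PLf]
  have h2 : algebraMap U' U r' = r := H.root
  rw [h2]
  constructor
  · intro hz σ hσ hσr
    have hfix0 : ∀ m ∈ MM E K0 r, σ m = m := by
      intro m hm
      unfold MM at hm
      induction hm using IntermediateField.adjoin_induction with
      | mem x hx =>
        rcases hx with ⟨x, rfl⟩ | hx
        · exact hσ.fixK x
        · rw [Set.mem_singleton_iff] at hx
          rw [hx]
          exact hσr
      | algebraMap e => exact hσ.fixE e
      | add x y _ _ h1 h2 => rw [map_add, h1, h2]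
      | inv x _ h1 => rw [map_inv₀, h1]
      | mul x y _ _ h1 h2 => rw [map_mul, h1, h2]
    have hfix : ∀ m : MM E K0 r, σ (algebraMap (MM E K0 r) U m) = algebraMap (MM E K0 r) U m :=
      fun m => hfix0 m m.2
    obtain ⟨j, hj⟩ := hz (AlgEquiv.ofRingEquiv (f := σ) hfix)
    refine ⟨j, ?_⟩
    have h3 : ∀ (n : ℕ) (z : U), ((AlgEquiv.ofRingEquiv (f := σ) hfix) ^ n) z = (σ ^ n) z := by
      intro n
      induction n with
      | zero => intro z; rfl
      | succ n ih =>
        intro z
        rw [pow_succ, pow_succ]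
        exact ih _
    rw [← h3]
    exact hj
  · intro hz σ
    obtain ⟨j, hj⟩ := hz (σ : U ≃+* U) ⟨fun x => σ.commutes ⟨_, IntermediateField.subset_adjoin _ _
      (Or.inl ⟨x, rfl⟩)⟩, fun e => σ.commutes (algebraMap E (MM E K0 r) e)⟩
      (σ.commutes ⟨_, IntermediateField.subset_adjoin _ _ (Or.inr rfl)⟩)
    refine ⟨j, ?_⟩
    have h3 : ∀ (n : ℕ) (z : U), (σ ^ n) z = ((σ : U ≃+* U) ^ n) z := by
      intro n
      induction n with
      | zero => intro z; rfl
      | succ n ih =>
        intro z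
        rw [pow_succ, pow_succ]
        exact ih _
    rw [h3]
    exact hj

/-- the properties of `U'` -/
theorem proU97 (hℓ : ℓ.Prime) (G : Geo k K0 E U ℓ h r) (H : IsProU (K0 := K0) (E := E) ℓ r i r') :
    IsFunctionField E (L0 E K0 (U := U')) ∧ Normal K0 U' ∧ h ≠ 0 := by
  letI := i.toAlgebra
  have s1 : IsScalarTower E U' U := IsScalarTower.of_algebraMap_eq fun e => (H.const e).symm
  have s2 : IsScalarTower K0 U' U := IsScalarTower.of_algebraMap_eq fun e => (H.base e).symm
  have P : IsPLF E K0 U ℓ r' := isPLF97 H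
  have h1 : algebraMap U' U r' = r := H.root
  rw [← h1] at G
  refine ⟨(up_geoG P G hℓ).ff, normal_up P G hℓ.pos (hr_of G hℓ), ?_⟩
  rintro rfl
  have h2 := G.rpow
  rw [map_zero, pow_eq_zero_iff hℓ.ne_zero] at h2
  exact (map_ne_zero_iff _ (algebraMap U' U).injective).2 (hr_of G hℓ) h2

end pu

end

end Pool.Agent.FFS
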