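import Pool.Agent.Helper59.FF.KP
import Pool.Agent.Helper45.FF.PR.H2
import Pool.Agent.Helper45.FF.PR.G6
import Pool.Agent.Helper13.FF.LEVP
import Pool.Agent.Helper10.FF.FSF

/-!
# Project FF: the main theorem for pro-`ℓ` sections, with uniqueness
-/

set_option autoImplicit false

namespace Pool.Agent.FFS

/-- **The main theorem of project FF.** -/
theorem mainP2 : StmtMainP2 :=
  mainP2_of Pool.Agent.FFX.stmtFS stmtKP (Pool.Agent.FFP20.stmtLOCP2 stmtLP) stmtLEVP

end Pool.Agent.FFS
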