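import Pool.Agent.Helper13.FF.Defs

/-!
# Project FF: composites, transport of geometric branch points
-/

set_option autoImplicit false

namespace Pool.Agent.FFS

open VC IntermediateField Polynomial Pool.Agent.SC Pool.Agent.Helper91.Sect
open Pool.Agent.L (L0 MM)
open Pool.Agent.LN (Geo Act GoodCurve)
open Pool.Agent.M (Moves OverPl inL0)
open Pool.Agent.ML (BPl GBr trE trE_map)
open Pool.Agent.TOW (Au AuE)
open Pool.Agent.PRL (TT IsPL RtM)
open Pool.Agent.PRG (RatG TG KBX)

/-- the composite is finite over `F(t)` -/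
theorem fin_lift97 {F₀ k₀ F k : Type} [Field F₀] [Field k₀] [Algebra F₀ k₀] [Field F] [Field k]
    [Algebra F₀ F] [Algebra F k] [Algebra k₀ k] [Algebra F₀ k] [IsScalarTower F₀ F k]
    [IsScalarTower F₀ k₀ k] {t : k₀} (hfin : FiniteDimensional (IntermediateField.adjoin F₀ {t}) k₀)
    (hgen : IntermediateField.adjoin F (Set.range (algebraMap k₀ k)) = ⊤) :
    FiniteDimensional (IntermediateField.adjoin F {algebraMap k₀ k t}) k := by
  set A := IntermediateField.adjoin F₀ {t} with hA
  set B := IntermediateField.adjoin F {algebraMap k₀ k t} with hB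
  have hAB : ∀ a : A, algebraMap k₀ k (a : k₀) ∈ B := by
    have h1 : A ≤ (B.restrictScalars F₀).comap (IsScalarTower.toAlgHom F₀ k₀ k) := by
      rw [hA, IntermediateField.adjoin_le_iff, Set.singleton_subset_iff]
      exact IntermediateField.subset_adjoin _ _ rfl
    exact fun a => h1 a.2
  obtain ⟨s, hs⟩ := (Module.finite_def (R := A) (M := k₀)).1 hfin
  have hint : ∀ x : k₀, IsIntegral B (algebraMap k₀ k x) := by
    intro x
    obtain ⟨p, hp, hpx⟩ := (Algebra.IsIntegral.isIntegral (R := A) x)
    let φ : A →+* B := ((algebraMap k₀ k).comp (algebraMap A k₀)).codRestrict B fun a => hAB a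
    refine ⟨p.map φ, hp.map φ, ?_⟩
    rw [eval₂_map]
    have h2 : (algebraMap B k).comp φ = (algebraMap k₀ k).comp (algebraMap A k₀) := rfl
    rw [h2, ← Polynomial.hom_eval₂, hpx, map_zero]
  set L := IntermediateField.adjoin B (algebraMap k₀ k '' (s : Set k₀)) with hL
  have hLfin : FiniteDimensional B L := by
    have hfs : Finite (algebraMap k₀ k '' (s : Set k₀)) := (s.finite_toSet.image _).to_subtype
    refine IntermediateField.finiteDimensional_adjoin ?_
    rintro _ ⟨x, -, rfl⟩
    exact hint x
  have hLtop : L = ⊤ := by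
    rw [eq_top_iff]
    intro z _
    have h3 : (⊤ : IntermediateField F k) ≤ L.restrictScalars F := by
      rw [← hgen, IntermediateField.adjoin_le_iff]
      rintro _ ⟨x, rfl⟩
      have hx : x ∈ Submodule.span A (s : Set k₀) := by
        rw [hs]
        trivial
      induction hx using Submodule.span_induction with
      | mem y hy => exact IntermediateField.subset_adjoin _ _ ⟨y, hy, rfl⟩
      | zero =>
        rw [map_zero]
        exact zero_mem _
      | add y z _ _ h1 h2 =>
        rw [map_add]
        exact add_mem h1 h2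
      | smul a y _ h1 =>
        rw [Algebra.smul_def, map_mul]
        exact mul_mem (L.algebraMap_mem ⟨_, hAB a⟩) h1
    exact h3 (show z ∈ (⊤ : IntermediateField F k) from trivial)
  rw [hLtop] at hLfin
  exact IntermediateField.topEquiv.toLinearEquiv.finiteDimensional

/-- transport of a geometric branch point along an isomorphism of algebraic closures -/
def tr97 {k K0 E E' : Type} [Field k] [Field K0] [Field E] [Field E']
    [Algebra k K0] [Algebra k E] [Algebra k E'] {n : ℕ} {h : K0}
    (e : E ≃ₐ[k] E') (b : GBr k E n h) : GBr k E' n h where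
  P := b.P
  φ := (e : E →+* E').comp b.φ
  const := b.const
  ram := b.ram
  emb := fun a x hx => by
    change e (b.φ x) = _
    rw [b.emb a x hx, e.commutes]

theorem tr97_map {k K0 E E' : Type} [Field k] [Field K0] [Field E] [Field E']
    [Algebra k K0] [Algebra k E] [Algebra k E'] {n : ℕ} {h : K0}
    (e : E ≃ₐ[k] E') (b : GBr k E n h) (hb : ∀ g : E ≃ₐ[k] E, b.map g = b) (g' : E' ≃ₐ[k] E') :
    (tr97 e b).map g' = tr97 e b := by
  set g : E ≃ₐ[k] E := (e.trans g').trans e.symm with hg
  have h0 : tr97 e (b.map g) = tr97 e b := by rw [hb g]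
  rw [← h0]
  obtain ⟨P, φ, h1, h2, h3⟩ := b
  have h4 : ((g' : E' →+* E').comp ((e : E →+* E').comp ((g : E →+* E).comp φ))) =
      (g' : E' →+* E').comp ((e : E →+* E').comp ((g : E →+* E).comp φ)) := rfl
  have h5 : (⟨P, (g : E →+* E).comp φ, h1, h2, _⟩ : GBr k E n h) = ⟨P, φ, h1, h2, h3⟩ := hb g
  have h6 : (g : E →+* E).comp φ = φ := by
    have := congrArg (fun x : GBr k E n h => x.P) h5
    simp only [GBr.mk.injEq, heq_eq_eq, true_and] at h5
    exact h5
  have h7 : ((g' : E' →+* E').comp ((e : E →+* E').comp φ)) = (e : E →+* E').comp φ := by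
    refine RingHom.ext fun x => ?_
    have h8 := congrArg e (DFunLike.congr_fun h6 x)
    change e (e.symm (g' (e (φ x)))) = e (φ x) at h8
    rw [AlgEquiv.apply_symm_apply] at h8
    exact h8
  change (⟨P, (g' : E' →+* E').comp ((e : E →+* E').comp ((g : E →+* E).comp φ)), _, _, _⟩ :
    GBr k E' n h) = ⟨P, (e : E →+* E').comp ((g : E →+* E).comp φ), _, _, _⟩
  congr 1
  rw [h6, h7]

end Pool.Agent.FFS
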